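import Pool.Agent.H81.Mink5

set_option autoImplicit false

open scoped Pointwise

namespace Pool.Agent.Results.MP_aac655_gt.TraceFree

open Set Filter Topology

/-- `K` is a convex body in `ℝ^n` with `0` in its interior. -/
def IsK0 {n : ℕ} (K : Set (Fin n → ℝ)) : Prop :=
  IsCompact K ∧ Convex ℝ K ∧ (0 : Fin n → ℝ) ∈ interior K

/-- The real `n × n` matrices of trace zero (normed by the largest entry). -/
def W0 (n : ℕ) : Submodule ℝ (Fin n → Fin n → ℝ) where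
  carrier := {A | ∑ i, A i i = 0}
  add_mem' := by
    intro A B hA hB
    simp only [mem_setOf_eq, Pi.add_apply, Finset.sum_add_distrib] at *
    rw [hA, hB, add_zero]
  zero_mem' := by simp
  smul_mem' := by
    intro c A hA
    simp only [mem_setOf_eq, Pi.smul_apply, smul_eq_mul, ← Finset.mul_sum] at *
    rw [hA, mul_zero]

abbrev SL (n : ℕ) := Matrix.SpecialLinearGroup (Fin n) ℝ

lemma m1 {n : ℕ} (T : SL n) :
    ((T⁻¹ : SL n) : Matrix (Fin n) (Fin n) ℝ) * (T : Matrix (Fin n) (Fin n) ℝ) = 1 := by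
  rw [← Matrix.SpecialLinearGroup.coe_mul, inv_mul_cancel, Matrix.SpecialLinearGroup.coe_one]

/-- The conjugation action `A ↦ T A T⁻¹` of `SL(n, ℝ)` on trace-free matrices. -/
def conj {n : ℕ} (T : SL n) (A : W0 n) : W0 n :=
  ⟨((T : Matrix (Fin n) (Fin n) ℝ) * Matrix.of A.1 * ((T⁻¹ : SL n) : Matrix (Fin n) (Fin n) ℝ) :
      Matrix (Fin n) (Fin n) ℝ), by
    show Matrix.trace (_ * Matrix.of A.1 * _) = 0
    rw [Matrix.trace_mul_cycle, m1, one_mul]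
    exact A.2⟩

def conjL {n : ℕ} (T : SL n) : W0 n →ₗ[ℝ] W0 n where
  toFun := conj T
  map_add' A B := Subtype.ext (by
    show (_ * (Matrix.of A.1 + Matrix.of B.1) * _ : Matrix (Fin n) (Fin n) ℝ) =
      (_ * Matrix.of A.1 * _ + _ * Matrix.of B.1 * _ : Matrix (Fin n) (Fin n) ℝ)
    rw [mul_add, add_mul]
    rfl)
  map_smul' c A := Subtype.ext (by
    show (_ * (c • Matrix.of A.1) * _ : Matrix (Fin n) (Fin n) ℝ) =
      (c • (_ * Matrix.of A.1 * _) : Matrix (Fin n) (Fin n) ℝ)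
    rw [Matrix.mul_smul, Matrix.smul_mul]
    rfl)

/-- `K_j → K` in the Hausdorff distance, all bodies in `K_0`. -/
def Cv {n : ℕ} (Ks : ℕ → Set (Fin n → ℝ)) (K : Set (Fin n → ℝ)) : Prop :=
  (∀ j, IsK0 (Ks j)) ∧ IsK0 K ∧ Tendsto (fun j => Metric.hausdorffDist (Ks j) K) atTop (𝓝 0)

section
variable {n : ℕ} {W : Type} [NormedAddCommGroup W] [NormedSpace ℝ W]

/-- `Φ` maps `K_0` to nonempty compact convex sets. -/
def HasValues (Φ : Set (Fin n → ℝ) → Set W) : Prop :=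
  ∀ K, IsK0 K → (Φ K).Nonempty ∧ IsCompact (Φ K) ∧ Convex ℝ (Φ K)

/-- `T⁻¹ K`. -/
def pullBody (T : SL n) (K : Set (Fin n → ℝ)) : Set (Fin n → ℝ) :=
  ((T⁻¹ : SL n) : Matrix (Fin n) (Fin n) ℝ).mulVec '' K

/-- `ρ(T) Φ(T⁻¹ K) = Φ K`. -/
def Invariant {W : Type} (ρ : SL n → W → W) (Φ : Set (Fin n → ℝ) → Set W) : Prop :=
  ∀ (T : SL n) K, IsK0 K → ρ T '' Φ (pullBody T K) = Φ K

/-- Minkowski valuation property. -/
def IsVal (Φ : Set (Fin n → ℝ) → Set W) : Prop :=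
  ∀ K L, IsK0 K → IsK0 L → Convex ℝ (K ∪ L) → Φ (K ∪ L) + Φ (K ∩ L) = Φ K + Φ L

/-- Upper semicontinuity as in the problem file. -/
def Usc (Φ : Set (Fin n → ℝ) → Set W) : Prop :=
  ∀ D : Set W, IsCompact D → Convex ℝ D → (0 : W) ∈ interior D →
    ∀ Ks K, Cv Ks K → ∃ j0 : ℕ, ∀ j, j0 ≤ j → Φ (Ks j) ⊆ Φ K + D

/-- Sequential continuity in the Hausdorff distances. -/
def HCont (Φ : Set (Fin n → ℝ) → Set W) : Prop :=
  ∀ Ks K, Cv Ks K → Tendsto (fun j => Metric.hausdorffDist (Φ (Ks j)) (Φ K)) atTop (𝓝 0)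

/-- A non-trivial invariant Minkowski valuation, upper semicontinuous but not continuous. -/
def Good (ρ : SL n → W → W) (Φ : Set (Fin n → ℝ) → Set W) : Prop :=
  HasValues Φ ∧ Invariant ρ Φ ∧ IsVal Φ ∧ (∃ K, IsK0 K ∧ Φ K ≠ {0}) ∧ Usc Φ ∧ ¬ HCont Φ

end

theorem result (n : ℕ) (hn : 2 ≤ n) : ∃ Φ : Set (Fin n → ℝ) → Set (W0 n), Good conj Φ := by
  obtain ⟨Φ, h1, h2, h3, ⟨K, hK, h4⟩, h5, Ks, L, h6, h7, h8, h9⟩ :=
    Pool.Agent.H81.Mink.main (n := n) (W := W0 n) hn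
    (fun T => LinearMap.toContinuousLinearMap (conjL T))
    (fun T x => Subtype.ext (by
      show ((T : Matrix (Fin n) (Fin n) ℝ) * (((T⁻¹ : SL n) : Matrix (Fin n) (Fin n) ℝ) *
        Matrix.of x.1 * ((T⁻¹⁻¹ : SL n) : Matrix (Fin n) (Fin n) ℝ)) *
        ((T⁻¹ : SL n) : Matrix (Fin n) (Fin n) ℝ) : Matrix (Fin n) (Fin n) ℝ) = Matrix.of x.1
      have := mul_eq_one_comm.1 (m1 T)
      rw [inv_inv, ← Matrix.mul_assoc, ← Matrix.mul_assoc, this, Matrix.mul_assoc, this, one_mul,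
        mul_one]))
    (fun p => ⟨Pool.Agent.H81.Mink.wm p, Pool.Agent.H81.Mink.wm_tr hn p⟩)
    (Continuous.subtype_mk Pool.Agent.H81.Mink.wm_cont _)
    (fun T x u => Subtype.ext (Pool.Agent.H81.Mink.wm_eq (mul_eq_one_comm.1 (m1 T)) x u))
    (fun x u hx h0 => Pool.Agent.H81.Mink.wm_ne hn hx (congrArg Subtype.val h0))
  exact ⟨Φ, fun K a => h1 K ⟨a.1, a.2.1, a.2.2⟩, fun T K a => h2 T K ⟨a.1, a.2.1, a.2.2⟩,
    fun K L a b => h3 K L ⟨a.1, a.2.1, a.2.2⟩ ⟨b.1, b.2.1, b.2.2⟩,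
    ⟨K, ⟨hK.cpt, hK.cvx, hK.int⟩, h4⟩,
    fun D a b c Ks K ⟨d, e, f⟩ => h5 D a b c Ks K (fun j => ⟨(d j).1, (d j).2.1, (d j).2.2⟩)
      ⟨e.1, e.2.1, e.2.2⟩ f,
    fun hc => h9 (hc Ks L ⟨fun j => ⟨(h6 j).cpt, (h6 j).cvx, (h6 j).int⟩,
      ⟨h7.cpt, h7.cvx, h7.int⟩, h8⟩)⟩

end Pool.Agent.Results.MP_aac655_gt.TraceFree
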